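import Pool.Agent.X232.BB.Grp

set_option autoImplicit false

namespace X232.BB

open Set

noncomputable section

/-- base point of the `n`-th orbit -/
def base (n : ℕ) : I := ⟨n, ((1 : Q) : Q ⧸ Mn n)⟩

theorem smul_base (q : Q) (n : ℕ) : q • base n = ⟨n, (q : Q ⧸ Mn n)⟩ := by
  show (⟨n, ((q * 1 : Q) : Q ⧸ Mn n)⟩ : I) = _
  rw [mul_one]

theorem smul_base_of_mem {q : Q} {n : ℕ} (h : q ∈ Mn n) : q • base n = base n := by
  rw [smul_base]
  unfold base
  congr 1
  rw [QuotientGroup.eq]
  simpa using h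

/-- the family of subgroups -/
def K : ℕ ⊕ ℕ → Subgroup G
  | .inl n => ((SemidirectProduct.inr : Q →* G).comp (ofc n)).range
  | .inr n => ((SemidirectProduct.inl : N →* G).comp (ofc (base n))).range

theorem K_comm (a : ℕ ⊕ ℕ) : ∀ x ∈ K a, ∀ y ∈ K a, x * y = y * x := by
  rcases a with n | n
  · rintro _ ⟨v, rfl⟩ _ ⟨w, rfl⟩
    rw [← map_mul, ← map_mul, mul_comm]
  · rintro _ ⟨v, rfl⟩ _ ⟨w, rfl⟩
    rw [← map_mul, ← map_mul, mul_comm]

theorem V_unc : ¬ (univ : Set V).Countable := by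
  intro h
  have : (univ : Set ℝ).Countable := h
  exact Cardinal.not_countable_real this

theorem K_unc (a : ℕ ⊕ ℕ) : ¬ (K a : Set G).Countable := by
  have key : ∀ f : V →* G, Function.Injective f → ¬ (f.range : Set G).Countable := by
    intro f hf h
    rw [MonoidHom.coe_range] at h
    have h2 : (f '' univ).Countable := by rwa [image_univ]
    exact V_unc (Set.countable_of_injective_of_countable_image hf.injOn h2)
  rcases a with n | n
  · refine key _ ?_
    exact SemidirectProduct.inr_injective.comp (Monoid.CoprodI.of_injective _)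
  · refine key _ ?_
    exact SemidirectProduct.inl_injective.comp (Monoid.CoprodI.of_injective _)

theorem conj_inl (q : Q) (u : N) : (SemidirectProduct.inl (act q u) : G) =
    SemidirectProduct.inr q * SemidirectProduct.inl u * SemidirectProduct.inr q⁻¹ :=
  SemidirectProduct.inl_aut _ _

theorem act_ofc (q : Q) (i : I) (v : V) : act q (ofc i v) = ofc (q • i) v := by
  rw [act_apply, relabHom_of]

theorem K_gen : Subgroup.closure (⋃ a, (K a : Set G)) = ⊤ := by
  rw [eq_top_iff]
  set H := Subgroup.closure (⋃ a, (K a : Set G)) with hH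
  have h1 : ∀ a, ∀ x ∈ K a, x ∈ H := fun a x hx => Subgroup.subset_closure (mem_iUnion.2 ⟨a, hx⟩)
  have hinr : ∀ q : Q, (SemidirectProduct.inr q : G) ∈ H := by
    intro q
    induction q using Monoid.CoprodI.induction_on with
    | one => rw [map_one]; exact one_mem _
    | of i v => exact h1 (.inl i) _ ⟨v, rfl⟩
    | mul x y hx hy => rw [map_mul]; exact mul_mem hx hy
  have hinl : ∀ u : N, (SemidirectProduct.inl u : G) ∈ H := by
    intro u
    induction u using Monoid.CoprodI.induction_on with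
    | one => rw [map_one]; exact one_mem _
    | of i v =>
      obtain ⟨n, c⟩ := i
      obtain ⟨g, rfl⟩ := QuotientGroup.mk_surjective c
      have h2 : (SemidirectProduct.inl (ofc (⟨n, (g : Q ⧸ Mn n)⟩ : I) v) : G) =
          SemidirectProduct.inr g * SemidirectProduct.inl (ofc (base n) v) *
            SemidirectProduct.inr g⁻¹ := by
        rw [← conj_inl, act_ofc, smul_base]
      change (SemidirectProduct.inl (ofc (⟨n, (g : Q ⧸ Mn n)⟩ : I) v) : G) ∈ H
      rw [h2]
      exact mul_mem (mul_mem (hinr _) (h1 (.inr n) _ ⟨v, rfl⟩)) (hinr _)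
    | mul x y hx hy => rw [map_mul]; exact mul_mem hx hy
  intro x _
  have hx : x = SemidirectProduct.inl x.left * SemidirectProduct.inr x.right :=
    (SemidirectProduct.inl_left_mul_inr_right x).symm
  rw [hx]
  exact mul_mem (hinl _) (hinr _)

def adj (a b : ℕ ⊕ ℕ) : Prop :=
  ∃ n m : ℕ, a = .inl m ∧ b = .inr n ∧ (m = n ∨ m = n + 1)

theorem K_adj (a b : ℕ ⊕ ℕ) (h : adj a b) : ∀ x ∈ K a, ∀ y ∈ K b, x * y = y * x := by
  obtain ⟨n, m, rfl, rfl, hm⟩ := h
  rintro _ ⟨v, rfl⟩ _ ⟨w, rfl⟩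
  show (SemidirectProduct.inr (ofc m v) : G) * SemidirectProduct.inl (ofc (base n) w) =
    SemidirectProduct.inl (ofc (base n) w) * SemidirectProduct.inr (ofc m v)
  have hmem : (ofc m v : Q) ∈ Mn n := of_mem_MJ (by simpa using hm) v
  have h2 := conj_inl (ofc m v) (ofc (base n) w)
  rw [act_ofc, smul_base_of_mem hmem] at h2
  conv_rhs => rw [h2]
  rw [map_inv, inv_mul_cancel_right]

theorem K_conn (a b : ℕ ⊕ ℕ) : Relation.EqvGen adj a b := by
  have h1 : ∀ n, Relation.EqvGen adj (.inl n) (.inr n) := fun n =>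
    Relation.EqvGen.rel _ _ ⟨n, n, rfl, rfl, Or.inl rfl⟩
  have h2 : ∀ n, Relation.EqvGen adj (.inl (n + 1)) (.inr n) := fun n =>
    Relation.EqvGen.rel _ _ ⟨n, n + 1, rfl, rfl, Or.inr rfl⟩
  have h3 : ∀ n, Relation.EqvGen adj (.inl 0) (.inl n) := by
    intro n
    induction n with
    | zero => exact Relation.EqvGen.refl _
    | succ n ih => exact (ih.trans _ _ _ (h1 n)).trans _ _ _ ((h2 n).symm)
  have h4 : ∀ a, Relation.EqvGen adj (.inl 0) a := by
    intro a
    rcases a with n | n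
    · exact h3 n
    · exact (h3 n).trans _ _ _ (h1 n)
  exact ((h4 a).symm).trans _ _ _ (h4 b)

theorem G_converges {f : G → ℝ}
    (hf : ∀ k : G, ∀ ε : ℝ, 0 < ε → {x | ε ≤ |f (k * x) - f x|}.Finite) :
    ∃ c : ℝ, ∀ ε : ℝ, 0 < ε → {x | ε ≤ |f x - c|}.Finite :=
  converges K K_comm K_unc K_gen adj K_adj K_conn hf

end

end X232.BB
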