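import Mathlib

set_option autoImplicit false

/-! Slowly oscillating functions on groups generated by linked uncountable abelian subgroups
converge along the filter of cofinite sets. -/

namespace X232.BB

open Set

section

variable {G : Type*} [Group G]

/-- countable version: a countable part of an uncountable commuting set has a limit -/
theorem lim_countable {f : G → ℝ} (hf : ∀ k : G, ∀ ε : ℝ, 0 < ε → {x | ε ≤ |f (k * x) - f x|}.Finite)
    {S : Set G} (hS : ∀ x ∈ S, ∀ y ∈ S, x * y = y * x) (hu : ¬ S.Countable) (x : G)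
    {H : Set G} (hH : H.Countable) (hHS : H ⊆ S) :
    ∃ c : ℝ, ∀ ε : ℝ, 0 < ε → {y | y ∈ H ∧ ε ≤ |f (y * x) - c|}.Finite := by
  classical
  -- the exceptional countable set
  set D : Set G := ⋃ h ∈ H, ⋃ n : ℕ, {z | 1 / ((n : ℝ) + 1) ≤ |f (h * z) - f z|} with hD
  have hDc : D.Countable := by
    refine hH.biUnion fun h _ => countable_iUnion fun n => ?_
    exact (hf h _ (by positivity)).countable
  have hinj : Function.Injective (fun k : G => k * x) := fun a b hab => mul_right_cancel hab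
  have hDc' : {k | k * x ∈ D}.Countable := hDc.preimage hinj
  obtain ⟨k, hkS, hk⟩ : ∃ k ∈ S, k * x ∉ D := by
    by_contra hcon
    push Not at hcon
    exact hu (hDc'.mono hcon)
  have hval : ∀ h ∈ H, f (h * (k * x)) = f (k * x) := by
    intro h hh
    by_contra hne
    apply hk
    have hpos : 0 < |f (h * (k * x)) - f (k * x)| := abs_pos.2 (sub_ne_zero.2 hne)
    obtain ⟨n, hn⟩ := exists_nat_one_div_lt hpos
    simp only [hD, mem_iUnion]
    exact ⟨h, hh, n, hn.le⟩
  refine ⟨f (k * x), fun ε hε => ?_⟩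
  have hfin := hf k ε hε
  refine (hfin.preimage (f := fun y : G => y * x) (hinj.injOn)).subset ?_
  rintro y ⟨hyH, hy⟩
  have h1 : k * (y * x) = y * (k * x) := by
    rw [← mul_assoc, hS k hkS y (hHS hyH), mul_assoc]
  show ε ≤ |f (k * (y * x)) - f (y * x)|
  rw [h1, hval y hyH, abs_sub_comm]
  exact hy

theorem lim_unique {f : G → ℝ} {H : Set G} (hi : H.Infinite) {x : G} {c c' : ℝ}
    (h : ∀ ε : ℝ, 0 < ε → {y | y ∈ H ∧ ε ≤ |f (y * x) - c|}.Finite)
    (h' : ∀ ε : ℝ, 0 < ε → {y | y ∈ H ∧ ε ≤ |f (y * x) - c'|}.Finite) : c = c' := by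
  by_contra hne
  have hpos : 0 < |c - c'| / 2 := by
    have := abs_pos.2 (sub_ne_zero.2 hne)
    linarith
  have hfin := (h _ hpos).union (h' _ hpos)
  obtain ⟨y, hyH, hy⟩ := (hi.sdiff hfin).nonempty
  simp only [mem_union, mem_ofPred_eq, not_or, not_and, not_le] at hy
  have h1 := hy.1 hyH
  have h2 := hy.2 hyH
  have h3 : |c - c'| ≤ |f (y * x) - c| + |f (y * x) - c'| := by
    have : c - c' = (f (y * x) - c') - (f (y * x) - c) := by ring
    rw [this]
    calc |(f (y * x) - c') - (f (y * x) - c)| ≤ |f (y * x) - c'| + |f (y * x) - c| := abs_sub _ _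
      _ = _ := add_comm _ _
  linarith

theorem lim_exists {f : G → ℝ} (hf : ∀ k : G, ∀ ε : ℝ, 0 < ε → {x | ε ≤ |f (k * x) - f x|}.Finite)
    {S : Set G} (hS : ∀ x ∈ S, ∀ y ∈ S, x * y = y * x) (hu : ¬ S.Countable) (x : G) :
    ∃ c : ℝ, ∀ ε : ℝ, 0 < ε → {y | y ∈ S ∧ ε ≤ |f (y * x) - c|}.Finite := by
  classical
  have hSi : S.Infinite := fun h => hu h.countable
  obtain ⟨H₀, hH₀S, hH₀i, hH₀c⟩ : ∃ H₀ ⊆ S, H₀.Infinite ∧ H₀.Countable := by
    obtain ⟨g, hg⟩ : ∃ g : ℕ → ↥S, Function.Injective g :=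
      ⟨Set.Infinite.natEmbedding _ hSi, (Set.Infinite.natEmbedding _ hSi).injective⟩
    exact ⟨range fun n => (g n : G), by rintro _ ⟨n, rfl⟩; exact (g n).2,
      infinite_range_of_injective (Subtype.val_injective.comp hg), countable_range _⟩
  obtain ⟨c, hc⟩ := lim_countable hf hS hu x hH₀c hH₀S
  refine ⟨c, fun ε hε => ?_⟩
  by_contra hinf
  have hinf' : {y | y ∈ S ∧ ε ≤ |f (y * x) - c|}.Infinite := hinf
  obtain ⟨g, hg⟩ : ∃ g : ℕ → ↥{y | y ∈ S ∧ ε ≤ |f (y * x) - c|}, Function.Injective g :=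
    ⟨Set.Infinite.natEmbedding _ hinf', (Set.Infinite.natEmbedding _ hinf').injective⟩
  set H₁ : Set G := range fun n => (g n : G) with hH₁
  have hH₁i : H₁.Infinite := infinite_range_of_injective (Subtype.val_injective.comp hg)
  have hH₁c : H₁.Countable := countable_range _
  have hH₁p : ∀ y ∈ H₁, y ∈ S ∧ ε ≤ |f (y * x) - c| := by
    rintro _ ⟨n, rfl⟩
    exact (g n).2
  obtain ⟨c', hc'⟩ := lim_countable hf hS hu x (hH₀c.union hH₁c)
    (union_subset hH₀S fun y hy => (hH₁p y hy).1)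
  have hcc : c = c' := by
    refine lim_unique hH₀i hc fun δ hδ => (hc' δ hδ).subset ?_
    rintro y ⟨hy, h⟩
    exact ⟨Or.inl hy, h⟩
  have : H₁ ⊆ {y | y ∈ H₀ ∪ H₁ ∧ ε ≤ |f (y * x) - c'|} := by
    intro y hy
    exact ⟨Or.inr hy, hcc ▸ (hH₁p y hy).2⟩
  exact hH₁i ((hc' ε hε).subset this)

/-- Main statement: convergence along the cofinite filter. -/
theorem converges {A : Type*} [Nonempty A] (K : A → Subgroup G)
    (comm : ∀ a, ∀ x ∈ K a, ∀ y ∈ K a, x * y = y * x)
    (unc : ∀ a, ¬ (K a : Set G).Countable)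
    (gen : Subgroup.closure (⋃ a, (K a : Set G)) = ⊤)
    (adj : A → A → Prop) (hadj : ∀ a b, adj a b → ∀ x ∈ K a, ∀ y ∈ K b, x * y = y * x)
    (conn : ∀ a b, Relation.EqvGen adj a b)
    {f : G → ℝ} (hf : ∀ k : G, ∀ ε : ℝ, 0 < ε → {x | ε ≤ |f (k * x) - f x|}.Finite) :
    ∃ c : ℝ, ∀ ε : ℝ, 0 < ε → {x | ε ≤ |f x - c|}.Finite := by
  classical
  have hinf : ∀ a, (K a : Set G).Infinite := fun a h => unc a h.countable
  have hex : ∀ (a : A) (x : G), ∃ c : ℝ, ∀ ε : ℝ, 0 < ε →
      {y | y ∈ (K a : Set G) ∧ ε ≤ |f (y * x) - c|}.Finite :=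
    fun a x => lim_exists hf (S := (K a : Set G)) (comm a) (unc a) x
  choose c hc using hex
  -- adjacent subgroups have the same limit
  have hadjc : ∀ a b, adj a b → ∀ x, c a x = c b x := by
    intro a b hab x
    have hSc : ∀ u ∈ (K a : Set G) ∪ (K b : Set G), ∀ v ∈ (K a : Set G) ∪ (K b : Set G),
        u * v = v * u := by
      rintro u (hu | hu) v (hv | hv)
      · exact comm a u hu v hv
      · exact hadj a b hab u hu v hv
      · exact (hadj a b hab v hv u hu).symm
      · exact comm b u hu v hv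
    obtain ⟨d, hd⟩ := lim_exists hf hSc (fun h => unc a (h.mono subset_union_left)) x
    have h1 : c a x = d := lim_unique (hinf a) (hc a x) fun ε hε => (hd ε hε).subset
      fun y hy => ⟨Or.inl hy.1, hy.2⟩
    have h2 : c b x = d := lim_unique (hinf b) (hc b x) fun ε hε => (hd ε hε).subset
      fun y hy => ⟨Or.inr hy.1, hy.2⟩
    rw [h1, h2]
  have hallc : ∀ a b x, c a x = c b x := by
    intro a b x
    have := conn a b
    induction this with
    | rel a b h => exact hadjc a b h x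
    | refl a => rfl
    | symm a b _ ih => exact ih.symm
    | trans a b d _ _ ih1 ih2 => exact ih1.trans ih2
  -- multiplication by an element of K a does not change c a
  have hmulc : ∀ a, ∀ k ∈ K a, ∀ x, c a (k * x) = c a x := by
    intro a k hk x
    refine lim_unique (f := f) (hinf a) (hc a (k * x)) (c' := c a x) (x := k * x) fun ε hε => ?_
    have hinj : Function.Injective (fun y : G => y * k) := fun u v huv => mul_right_cancel huv
    refine ((hc a x ε hε).preimage (f := fun y : G => y * k) hinj.injOn).subset ?_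
    rintro y ⟨hy, h⟩
    refine ⟨(K a).mul_mem hy hk, ?_⟩
    show ε ≤ |f (y * k * x) - c a x|
    rw [mul_assoc]
    exact h
  obtain ⟨a₀⟩ := ‹Nonempty A›
  have hconst : ∀ g x, c a₀ (g * x) = c a₀ x := by
    intro g
    have hg : g ∈ Subgroup.closure (⋃ a, (K a : Set G)) := by rw [gen]; trivial
    refine Subgroup.closure_induction (p := fun g _ => ∀ x, c a₀ (g * x) = c a₀ x) ?_ ?_ ?_ ?_ hg
    · intro g hg x
      obtain ⟨a, ha⟩ := mem_iUnion.1 hg
      rw [hallc a₀ a, hmulc a g ha x, hallc a a₀]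
    · intro x; rw [one_mul]
    · intro g h _ _ ihg ihh x
      rw [mul_assoc, ihg, ihh]
    · intro g _ ih x
      have := ih (g⁻¹ * x)
      rw [mul_inv_cancel_left] at this
      exact this.symm
  refine ⟨c a₀ 1, fun δ hδ => ?_⟩
  by_contra hX
  have hX' : {x | δ ≤ |f x - c a₀ 1|}.Infinite := hX
  obtain ⟨xs, hxs⟩ : ∃ g : ℕ → ↥{x | δ ≤ |f x - c a₀ 1|}, Function.Injective g :=
    ⟨Set.Infinite.natEmbedding _ hX', (Set.Infinite.natEmbedding _ hX').injective⟩
  -- for every y there is N such that f (y x_j) is close to f x_j for all j ≥ N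
  have hN : ∀ y : G, ∃ N : ℕ, ∀ j, N ≤ j → |f (y * (xs j : G)) - f (xs j)| < δ / 2 := by
    intro y
    have hfin := (hf y (δ / 2) (by linarith)).preimage
      (f := fun j : ℕ => (xs j : G)) ((Subtype.val_injective.comp hxs).injOn)
    obtain ⟨N, hN⟩ := hfin.bddAbove
    refine ⟨N + 1, fun j hj => ?_⟩
    by_contra hcon
    push Not at hcon
    have : j ≤ N := hN hcon
    omega
  choose N hN using hN
  obtain ⟨n, hn⟩ : ∃ n : ℕ, {y | y ∈ (K a₀ : Set G) ∧ N y = n}.Infinite := by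
    by_contra hcon
    push Not at hcon
    apply unc a₀
    have : (K a₀ : Set G) ⊆ ⋃ n : ℕ, {y | y ∈ (K a₀ : Set G) ∧ N y = n} := fun y hy =>
      mem_iUnion.2 ⟨N y, hy, rfl⟩
    exact (countable_iUnion fun n => (hcon n).countable).mono this
  apply hn
  have hcx : c a₀ (xs n : G) = c a₀ 1 := by
    have := hconst (xs n : G) 1
    rwa [mul_one] at this
  refine (hc a₀ (xs n : G) (δ / 2) (by linarith)).subset ?_
  rintro y ⟨hy, hyn⟩
  refine ⟨hy, ?_⟩
  have h1 := hN y n (by rw [hyn])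
  have h2 : δ ≤ |f (xs n) - c a₀ 1| := (xs n).2
  rw [hcx]
  have h3 : |f (xs n) - c a₀ 1| ≤ |f (y * (xs n : G)) - f (xs n)| + |f (y * (xs n : G)) - c a₀ 1| := by
    have : f (xs n) - c a₀ 1 = (f (y * (xs n : G)) - c a₀ 1) - (f (y * (xs n : G)) - f (xs n)) := by
      ring
    rw [this]
    calc _ ≤ |f (y * (xs n : G)) - c a₀ 1| + |f (y * (xs n : G)) - f (xs n)| := abs_sub _ _
      _ = _ := add_comm _ _
  linarith

end

end X232.BB
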