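import Pool.Agent.X232.BB.Last
import Pool.Agent.X232.BB.SoPart

set_option autoImplicit false

/-! The group whose finitary ballean is so-bounded but not bo-bounded. -/

namespace X232.BB

open Set

noncomputable section

/-- an uncountable abelian group -/
abbrev V : Type := Multiplicative ℝ

abbrev Q : Type := FP ℕ V

/-- the subgroup generated by the copies `n` and `n+1` -/
abbrev Mn (n : ℕ) : Subgroup Q := MJ V ({n, n + 1} : Set ℕ)

abbrev I : Type := Σ n : ℕ, Q ⧸ Mn n

abbrev N : Type := FP I V

theorem smul_comp (a b : Q) : ((fun i : I => a • i) ∘ fun i : I => b • i) = fun i : I => (a * b) • i := by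
  funext i
  exact (mul_smul a b i).symm

theorem smul_one_id : (fun i : I => (1 : Q) • i) = id := by
  funext i
  exact one_smul _ i

theorem smul_inv_comp (q : Q) : ((fun i : I => q⁻¹ • i) ∘ fun i : I => q • i) = id := by
  rw [smul_comp, inv_mul_cancel, smul_one_id]

/-- the action of `Q` on `N` -/
def actE (q : Q) : MulAut N where
  toFun := relabHom (fun i : I => q • i)
  invFun := relabHom (fun i : I => q⁻¹ • i)
  left_inv w := by
    rw [relabHom_relabHom, smul_inv_comp, relabHom_id_apply]
  right_inv w := by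
    rw [relabHom_relabHom, smul_comp, mul_inv_cancel, smul_one_id, relabHom_id_apply]
  map_mul' := map_mul _

theorem actE_apply (q : Q) (w : N) : actE q w = relabHom (fun i : I => q • i) w := rfl

def act : Q →* MulAut N where
  toFun := actE
  map_one' := by
    ext w
    rw [actE_apply, smul_one_id, relabHom_id_apply]
    rfl
  map_mul' a b := by
    ext w
    rw [MulAut.mul_apply, actE_apply, actE_apply, actE_apply, relabHom_relabHom, smul_comp]

theorem act_apply (q : Q) (w : N) : act q w = relabHom (fun i : I => q • i) w := rfl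

theorem lst_act (q : Q) (w : N) : lst (act q w) = (lst w).map (fun i : I => q • i) := by
  rw [act_apply]
  exact lst_relab (smul_inv_comp q) w

/-- the group -/
abbrev G : Type := N ⋊[act] Q

/-! ### the function -/

def F0 (q : Q) : ℕ := (lst q).getD 0

open Classical in
def F (i : I) : ℕ := if (i.2 = ((1 : Q) : Q ⧸ Mn i.1)) then i.1 else (lst (i.2.out)⁻¹).getD 0

theorem F_mem {n : ℕ} {g : Q} (hg : g ∈ Mn n) : F ⟨n, (g : Q ⧸ Mn n)⟩ = n := by
  unfold F
  rw [if_pos]
  show ((g : Q ⧸ Mn n)) = ((1 : Q) : Q ⧸ Mn n)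
  rw [QuotientGroup.eq]
  simpa using hg

theorem F_not_mem {n : ℕ} {g : Q} (hg : g ∉ Mn n) : F ⟨n, (g : Q ⧸ Mn n)⟩ = (lst g⁻¹).getD 0 := by
  unfold F
  rw [if_neg]
  · show (lst ((g : Q ⧸ Mn n)).out⁻¹).getD 0 = _
    obtain ⟨m, hm⟩ := QuotientGroup.mk_out_eq_mul (Mn n) g
    rw [hm, mul_inv_rev]
    have := lst_mul_of_not_mem (J := ({n, n + 1} : Set ℕ)) (g := g⁻¹)
      (fun h => hg (by simpa using inv_mem h)) (m : Q)⁻¹ (inv_mem m.2)
    rw [this]
  · show ¬ ((g : Q ⧸ Mn n)) = ((1 : Q) : Q ⧸ Mn n)
    rw [QuotientGroup.eq]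
    simpa using hg

theorem near (i : I) : {q : Q | 1 < |(F (q⁻¹ • i) : ℝ) - F0 q|}.Finite := by
  obtain ⟨n, c⟩ := i
  obtain ⟨g, rfl⟩ := QuotientGroup.mk_surjective c
  refine ((exc_finite g⁻¹).union (Set.finite_singleton g)).subset ?_
  intro q hq
  by_contra hcon
  simp only [mem_union, mem_ofPred_eq, mem_singleton_iff, not_or, not_not] at hcon
  obtain ⟨h1, h2⟩ := hcon
  have hne : g⁻¹ * q ≠ 1 := fun h => h2 (by
    have := mul_eq_one_iff_eq_inv.1 h
    rw [inv_eq_iff_eq_inv, ] at this
    rw [this] ; simp)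
  apply absurd hq
  show ¬ (1 < |(F (q⁻¹ • (⟨n, (g : Q ⧸ Mn n)⟩ : I)) : ℝ) - F0 q|)
  rw [not_lt]
  have hs : q⁻¹ • (⟨n, (g : Q ⧸ Mn n)⟩ : I) = ⟨n, ((q⁻¹ * g : Q) : Q ⧸ Mn n)⟩ := rfl
  rw [hs]
  by_cases hm : q⁻¹ * g ∈ Mn n
  · rw [F_mem hm]
    have hm' : g⁻¹ * q ∈ Mn n := by
      have := inv_mem hm
      rwa [mul_inv_rev, inv_inv] at this
    obtain ⟨j, hj⟩ := Option.ne_none_iff_exists'.1 (fun h => hne (lst_eq_none.1 h))
    have hj' : j ∈ ({n, n + 1} : Set ℕ) := lst_of_mem hm' hj
    have hF : F0 q = j := by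
      unfold F0
      rw [← h1, hj]; rfl
    rw [hF]
    rcases hj' with rfl | hj'
    · simp
    · rw [mem_singleton_iff] at hj'
      subst hj'
      push_cast
      rw [show (n : ℝ) - (n + 1) = -1 by ring]
      simp
  · rw [F_not_mem hm, mul_inv_rev, inv_inv, h1]
    unfold F0
    simp

def val (q : Q) : Option I → ℝ
  | none => F0 q
  | some j => F (q⁻¹ • j)

def ff (x : G) : ℝ := val x.right (lst x.left)

theorem val_near (o : Option I) : {q : Q | 1 < |val q o - F0 q|}.Finite := by
  rcases o with _ | j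
  · refine Set.finite_empty.subset ?_
    intro q hq
    exfalso
    have : (1 : ℝ) < |(F0 q : ℝ) - F0 q| := hq
    rw [sub_self, abs_zero] at this
    linarith
  · exact near j

theorem ff_inr (q : Q) : {x : G | ff (SemidirectProduct.inr q * x) ≠ ff x}.Finite := by
  refine ((exc_finite q).image (fun q' => (SemidirectProduct.inr q' : G))).subset ?_
  intro x hx
  have hl : (SemidirectProduct.inr q * x : G).left = act q x.left := by
    rw [SemidirectProduct.mul_left]
    simp
  have hr : (SemidirectProduct.inr q * x : G).right = q * x.right := by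
    rw [SemidirectProduct.mul_right]
    simp
  have hx' : val (q * x.right) ((lst x.left).map fun i : I => q • i) ≠ val x.right (lst x.left) := by
    have : ff (SemidirectProduct.inr q * x) ≠ ff x := hx
    unfold ff at this
    rwa [hl, hr, lst_act] at this
  rcases hlx : lst x.left with _ | j
  · rw [hlx] at hx'
    have hx1 : x.left = 1 := lst_eq_none.1 hlx
    refine ⟨x.right, ?_, ?_⟩
    · show lst (q * x.right) ≠ lst x.right
      intro h
      apply hx'
      show ((F0 (q * x.right) : ℕ) : ℝ) = F0 x.right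
      unfold F0
      rw [h]
    · ext
      · simp [hx1]
      · simp
  · exfalso
    rw [hlx] at hx'
    apply hx'
    show ((F ((q * x.right)⁻¹ • (q • j)) : ℕ) : ℝ) = F (x.right⁻¹ • j)
    rw [mul_inv_rev, mul_smul, inv_smul_smul]

theorem ff_inl (u : N) : {x : G | 2 < |ff (SemidirectProduct.inl u * x) - ff x|}.Finite := by
  have hfin : (⋃ w ∈ {w : N | lst (u * w) ≠ lst w},
      (fun q : Q => (⟨w, q⟩ : G)) '' ({q | 1 < |val q (lst (u * w)) - F0 q|} ∪
        {q | 1 < |val q (lst w) - F0 q|})).Finite := by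
    refine (exc_finite u).biUnion fun w _ => ?_
    exact ((val_near _).union (val_near _)).image _
  refine hfin.subset ?_
  intro x hx
  have hl : (SemidirectProduct.inl u * x : G).left = u * x.left := by
    rw [SemidirectProduct.mul_left]
    simp
  have hr : (SemidirectProduct.inl u * x : G).right = x.right := by
    rw [SemidirectProduct.mul_right]
    simp
  have hx' : 2 < |val x.right (lst (u * x.left)) - val x.right (lst x.left)| := by
    have : 2 < |ff (SemidirectProduct.inl u * x) - ff x| := hx
    unfold ff at this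
    rwa [hl, hr] at this
  refine mem_biUnion (x := x.left) ?_ ⟨x.right, ?_, ?_⟩
  · show lst (u * x.left) ≠ lst x.left
    intro h
    rw [h, sub_self, abs_zero] at hx'
    linarith
  · by_contra hcon
    simp only [mem_union, mem_ofPred_eq, not_or, not_lt] at hcon
    have h3 : |val x.right (lst (u * x.left)) - val x.right (lst x.left)| ≤
        |val x.right (lst (u * x.left)) - F0 x.right| + |val x.right (lst x.left) - F0 x.right| := by
      have : val x.right (lst (u * x.left)) - val x.right (lst x.left) =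
        (val x.right (lst (u * x.left)) - F0 x.right) - (val x.right (lst x.left) - F0 x.right) := by
        ring
      rw [this]
      exact abs_sub _ _
    linarith [hcon.1, hcon.2]
  · ext <;> rfl

theorem ff_bo (k : G) : {x : G | 2 < |ff (k * x) - ff x|}.Finite := by
  have hk : k = SemidirectProduct.inl k.left * SemidirectProduct.inr k.right :=
    (SemidirectProduct.inl_left_mul_inr_right k).symm
  have hinj : Function.Injective (fun x : G => (SemidirectProduct.inr k.right : G) * x) :=
    mul_right_injective _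
  refine ((ff_inr k.right).union ((ff_inl k.left).preimage hinj.injOn)).subset ?_
  intro x hx
  by_contra hcon
  simp only [mem_union, mem_ofPred_eq, mem_preimage, not_or, not_not] at hcon
  apply absurd hx
  show ¬ (2 < |ff (k * x) - ff x|)
  rw [hk, mul_assoc, ← hcon.1]
  exact hcon.2

theorem ff_of (n : ℕ) {v : V} (hv : v ≠ 1) : ff (SemidirectProduct.inr (ofc n v)) = n := by
  unfold ff
  rw [SemidirectProduct.left_inr, SemidirectProduct.right_inr, lst_one]
  show ((F0 (ofc n v) : ℕ) : ℝ) = n
  unfold F0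
  rw [lst_of hv]; rfl

theorem ff_unbounded (B : Set G) (hB : B.Finite) (C : ℝ) : ∃ x : G, x ∉ B ∧ C < |ff x| := by
  obtain ⟨n, hn⟩ := exists_nat_gt C
  have hinj : Function.Injective (fun v : V => (SemidirectProduct.inr (ofc n v) : G)) :=
    SemidirectProduct.inr_injective.comp (Monoid.CoprodI.of_injective _)
  have hfin : ((fun v : V => (SemidirectProduct.inr (ofc n v) : G)) ⁻¹' B ∪ {1}).Finite :=
    (hB.preimage hinj.injOn).union (Set.finite_singleton _)
  obtain ⟨v, hv⟩ := hfin.infinite_compl.nonempty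
  simp only [mem_compl_iff, mem_union, mem_preimage, mem_singleton_iff, not_or] at hv
  refine ⟨SemidirectProduct.inr (ofc n v), hv.1, ?_⟩
  rw [ff_of n hv.2]
  rwa [abs_of_nonneg (Nat.cast_nonneg n)]

end

end X232.BB
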