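import Mathlib

set_option autoImplicit false

/-! The index of the last syllable of an element of a free product of copies of a group. -/

namespace X232.BB

open Monoid.CoprodI Set

noncomputable section

/-- free product of copies of `V` indexed by `ι` -/
abbrev FP (ι V : Type*) [Group V] := Monoid.CoprodI (fun _ : ι => V)

variable {ι V : Type*} [Group V]

/-- the inclusion of the `i`-th copy -/
abbrev ofc (i : ι) : V →* FP ι V := Monoid.CoprodI.of (M := fun _ : ι => V) (i := i)

/-- last index of a word -/
def wlst (w : Word (fun _ : ι => V)) : Option ι := w.toList.getLast?.map Sigma.fst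

open Classical in
/-- index of the last syllable -/
def lst (w : FP ι V) : Option ι := wlst (Word.equiv w)

theorem wlst_empty : wlst (Word.empty : Word (fun _ : ι => V)) = none := rfl

theorem wlst_eq_none (w : Word (fun _ : ι => V)) : wlst w = none ↔ w = Word.empty := by
  constructor
  · intro h
    unfold wlst at h
    rw [Option.map_eq_none_iff, List.getLast?_eq_none_iff] at h
    exact Word.ext h
  · rintro rfl; rfl

open Classical in
theorem wlst_rcons {i : ι} (p : Word.Pair (fun _ : ι => V) i) :
    wlst (Word.rcons p) = if p.tail = Word.empty then (if p.head = 1 then none else some i)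
      else wlst p.tail := by
  unfold Word.rcons
  by_cases h : p.head = 1
  · rw [dif_pos h, if_pos h]
    split_ifs with h'
    · rw [h', wlst_empty]
    · rfl
  · rw [dif_neg h, if_neg h]
    unfold wlst
    simp only [Word.cons_toList]
    split_ifs with h'
    · rw [h']
      simp
    · have : p.tail.toList ≠ [] := fun hh => h' (Word.ext hh)
      rw [List.getLast?_cons]
      rw [List.getLast?_eq_some_getLast this]
      rfl

open Classical in
theorem equiv_one : Word.equiv (1 : FP ι V) = Word.empty := by
  show (1 : FP ι V) • (Word.empty : Word (fun _ : ι => V)) = _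
  exact one_smul _ _

open Classical in
theorem equiv_mul (a b : FP ι V) : Word.equiv (a * b) = a • Word.equiv b := by
  show (a * b) • (Word.empty : Word (fun _ : ι => V)) = a • (b • (Word.empty : Word (fun _ : ι => V)))
  exact mul_smul _ _ _

theorem lst_one : lst (1 : FP ι V) = none := by
  classical
  unfold lst
  rw [equiv_one, wlst_empty]

theorem lst_eq_none {w : FP ι V} : lst w = none ↔ w = 1 := by
  classical
  unfold lst
  rw [wlst_eq_none, ← equiv_one]
  exact Word.equiv.injective.eq_iff

theorem lst_of_mul' (i : ι) (g : V) (w : FP ι V) (h1 : w ≠ 1) (h2 : ofc i g * w ≠ 1) :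
    lst (ofc i g * w) = lst w := by
  classical
  have key : Word.equiv (ofc i g * w) = ofc i g • Word.equiv w := equiv_mul _ _
  have h1' : wlst (Word.equiv w) ≠ none := fun h => h1 (lst_eq_none.1 h)
  have h2' : wlst (Word.equiv (ofc i g * w)) ≠ none := fun h => h2 (lst_eq_none.1 h)
  have hw : Word.equiv w = Word.rcons (Word.equivPair i (Word.equiv w)) := by
    rw [← Word.equivPair_symm, Equiv.symm_apply_apply]
  unfold lst
  rw [key, Word.of_smul_def, wlst_rcons]
  rw [key, Word.of_smul_def, wlst_rcons] at h2'
  rw [hw, wlst_rcons] at h1'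
  conv_rhs => rw [hw, wlst_rcons]
  dsimp only at h2' ⊢
  by_cases ht : (Word.equivPair i (Word.equiv w)).tail = Word.empty
  · rw [if_pos ht] at h1' h2' ⊢
    rw [if_pos ht]
    by_cases a1 : (Word.equivPair i (Word.equiv w)).head = 1
    · rw [if_pos a1] at h1'
      exact absurd rfl h1'
    · by_cases a2 : g * (Word.equivPair i (Word.equiv w)).head = 1
      · rw [if_pos a2] at h2'
        exact absurd rfl h2'
      · rw [if_neg a1, if_neg a2]
  · rw [if_neg ht, if_neg ht]

theorem lst_of {i : ι} {g : V} (hg : g ≠ 1) : lst (ofc i g : FP ι V) = some i := by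
  classical
  have key : Word.equiv (ofc i g : FP ι V) = ofc i g • Word.empty := rfl
  unfold lst
  rw [key, Word.of_smul_def, Word.equivPair_eq_of_fstIdx_ne (by simp [Word.fstIdx]), wlst_rcons]
  simp [hg]

/-- Left multiplication changes the last index of finitely many elements only. -/
theorem exc_finite (u : FP ι V) : {w : FP ι V | lst (u * w) ≠ lst w}.Finite := by
  induction u using Monoid.CoprodI.induction_left with
  | one => simp
  | mul g u ih =>
    rename_i i
    have hinj : Function.Injective (fun w : FP ι V => u * w) := mul_right_injective u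
    have h2 : {z : FP ι V | lst (ofc i g * z) ≠ lst z}.Finite := by
      refine (Set.toFinite ({1, (ofc i g)⁻¹} : Set (FP ι V))).subset ?_
      intro z hz
      by_contra hcon
      simp only [mem_insert_iff, mem_singleton_iff, not_or] at hcon
      exact hz (lst_of_mul' i g z hcon.1 fun h => hcon.2 (eq_inv_of_mul_eq_one_right h))
    refine (ih.union (h2.preimage hinj.injOn)).subset ?_
    intro w hw
    by_contra hcon
    simp only [mem_union, mem_ofPred_eq, mem_preimage, not_or, not_not] at hcon
    apply hw
    rw [mul_assoc]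
    exact hcon.2.trans hcon.1

/-- the subgroup generated by the copies with index in `J` -/
def MJ (V : Type*) [Group V] (J : Set ι) : Subgroup (FP ι V) :=
  Subgroup.closure {x : FP ι V | ∃ j ∈ J, ∃ v : V, x = ofc j v}

theorem of_mem_MJ {J : Set ι} {j : ι} (hj : j ∈ J) (v : V) : (ofc j v : FP ι V) ∈ MJ V J :=
  Subgroup.subset_closure ⟨j, hj, v, rfl⟩

theorem MJ_induction {J : Set ι} {P : FP ι V → Prop} (h1 : P 1)
    (hm : ∀ j ∈ J, ∀ v : V, ∀ w ∈ MJ V J, P w → P (ofc j v * w)) :
    ∀ w ∈ MJ V J, P w := by
  intro w hw
  unfold MJ at hw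
  induction hw using Subgroup.closure_induction_left with
  | one => exact h1
  | mul_left x hx y hy hP =>
    obtain ⟨j, hj, v, rfl⟩ := hx
    exact hm j hj v y hy hP
  | inv_mul_cancel x hx y hy hP =>
    obtain ⟨j, hj, v, rfl⟩ := hx
    rw [← map_inv]
    exact hm j hj v⁻¹ y hy hP

theorem lst_of_mem {J : Set ι} {w : FP ι V} (hw : w ∈ MJ V J) : ∀ {j : ι}, lst w = some j →
    j ∈ J := by
  intro j
  refine MJ_induction (P := fun w => ∀ j, lst w = some j → j ∈ J) ?_ ?_ w hw j
  · intro j h
    rw [lst_one] at h
    cases h
  · intro i hi v w _ ih j hj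
    by_cases h1 : w = 1
    · subst h1
      rw [mul_one] at hj
      by_cases hv : v = 1
      · subst hv
        rw [map_one, lst_one] at hj
        cases hj
      · rw [lst_of hv] at hj
        cases hj
        exact hi
    · by_cases h2 : ofc i v * w = 1
      · rw [h2, lst_one] at hj
        cases hj
      · rw [lst_of_mul' i v w h1 h2] at hj
        exact ih j hj

theorem lst_mul_of_not_mem {J : Set ι} {g : FP ι V} (hg : g ∉ MJ V J) :
    ∀ m ∈ MJ V J, lst (m * g) = lst g := by
  refine MJ_induction ?_ ?_
  · rw [one_mul]
  · intro j hj v w hw ih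
    rw [mul_assoc, lst_of_mul' j v (w * g) ?_ ?_, ih]
    · intro h
      apply hg
      have : g = w⁻¹ := eq_inv_of_mul_eq_one_right h
      rw [this]
      exact inv_mem hw
    · intro h
      apply hg
      rw [← mul_assoc] at h
      have : g = (ofc j v * w)⁻¹ := eq_inv_of_mul_eq_one_right h
      rw [this]
      exact inv_mem (mul_mem (of_mem_MJ hj v) hw)

/-- relabelling of the copies -/
def relabHom (σ : ι → ι) : FP ι V →* FP ι V := Monoid.CoprodI.lift (fun i => ofc (σ i))

theorem relabHom_of (σ : ι → ι) (i : ι) (v : V) :
    relabHom σ (ofc i v : FP ι V) = ofc (σ i) v := by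
  unfold relabHom
  exact Monoid.CoprodI.lift_of _ _

theorem relabHom_comp (σ τ : ι → ι) :
    (relabHom σ).comp (relabHom τ) = relabHom (V := V) (σ ∘ τ) := by
  refine Monoid.CoprodI.ext_hom _ _ fun i => MonoidHom.ext fun v => ?_
  show relabHom σ (relabHom τ (ofc i v)) = relabHom (σ ∘ τ) (ofc i v)
  rw [relabHom_of, relabHom_of, relabHom_of]
  try rfl

theorem relabHom_id : relabHom (V := V) (id : ι → ι) = MonoidHom.id _ := by
  refine Monoid.CoprodI.ext_hom _ _ fun i => MonoidHom.ext fun v => ?_
  show relabHom id (ofc i v) = (ofc i v)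
  rw [relabHom_of]
  try rfl

theorem relabHom_relabHom (σ τ : ι → ι) (w : FP ι V) :
    relabHom σ (relabHom τ w) = relabHom (σ ∘ τ) w := by
  rw [← relabHom_comp]; rfl

theorem relabHom_id_apply (w : FP ι V) : relabHom id w = w := by
  rw [relabHom_id]; rfl

theorem relabHom_injective {σ : ι → ι} {τ : ι → ι} (h : τ ∘ σ = id) :
    Function.Injective (relabHom (V := V) σ) := by
  intro a b hab
  have := congrArg (relabHom τ) hab
  rwa [relabHom_relabHom, relabHom_relabHom, h, relabHom_id_apply, relabHom_id_apply] at this

theorem lst_relab {σ : ι → ι} {τ : ι → ι} (h : τ ∘ σ = id) (w : FP ι V) :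
    lst (relabHom σ w) = (lst w).map σ := by
  induction w using Monoid.CoprodI.induction_left with
  | one => rw [map_one, lst_one]; rfl
  | mul g w ih =>
    rename_i i
    change lst (relabHom σ (ofc i g * w)) = (lst (ofc i g * w)).map σ
    by_cases h1 : w = 1
    · subst h1
      rw [mul_one, relabHom_of]
      by_cases hv : g = 1
      · subst hv
        rw [map_one, map_one, lst_one]; rfl
      · rw [lst_of hv, lst_of hv]; rfl
    · by_cases h2 : ofc i g * w = 1
      · rw [h2, map_one, lst_one]; rfl
      · rw [lst_of_mul' i g w h1 h2, ← ih, map_mul, relabHom_of, lst_of_mul']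
        · exact fun hh => h1 ((map_eq_one_iff _ (relabHom_injective h)).1 hh)
        · intro hh
          rw [← relabHom_of, ← map_mul] at hh
          exact h2 ((map_eq_one_iff _ (relabHom_injective h)).1 hh)

end

end X232.BB
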